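import Pool.Agent.Helper71.FK.Defs

/-! # Module M8a of the quantitative Faber–Krahn development: smooth approximation -/

open MeasureTheory Metric Set Filter Topology
open scoped ENNReal ContDiff Convolution

namespace Pool.Agent.Helper41.FK

open Pool.Agent.Helper71.FK

theorem precompR_lsmul {F : Type*} [NormedAddCommGroup F] [NormedSpace ℝ F] (a : ℝ)
    (L : F →L[ℝ] ℝ) :
    (ContinuousLinearMap.precompR F (ContinuousLinearMap.lsmul ℝ ℝ : ℝ →L[ℝ] ℝ →L[ℝ] ℝ)) a L =
      (ContinuousLinearMap.lsmul ℝ ℝ : ℝ →L[ℝ] (F →L[ℝ] ℝ) →L[ℝ] (F →L[ℝ] ℝ)) a L := by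
  ext x
  simp

/-- uniform `C^1` approximation by mollification -/
theorem mollify {N : ℕ} {Ω : Set (E N)} (ho : IsOpen Ω) {u : E N → ℝ} (hu : Tst Ω u) :
    ∃ K : Set (E N), IsCompact K ∧ tsupport u ⊆ K ∧ ∀ η : ℝ, 0 < η → ∃ v : E N → ℝ,
      ContDiff ℝ (⊤ : ℕ∞) v ∧ HasCompactSupport v ∧ tsupport v ⊆ Ω ∧ tsupport v ⊆ K ∧
      (∀ x, |v x - u x| ≤ η) ∧ ∀ x, ‖fderiv ℝ v x - fderiv ℝ u x‖ ≤ η := by
  obtain ⟨δ0, hδ0, hδs⟩ := hu.cpt.isCompact.exists_cthickening_subset_open ho hu.supp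
  refine ⟨cthickening δ0 (tsupport u), hu.cpt.isCompact.cthickening,
    self_subset_cthickening _, fun η hη => ?_⟩
  have hcd : Continuous (fderiv ℝ u) := hu.smooth.continuous_fderiv (by simp)
  have hcs : HasCompactSupport (fderiv ℝ u) := hu.cpt.fderiv (𝕜 := ℝ)
  have hU1 := hu.cpt.uniformContinuous_of_continuous hu.smooth.continuous
  have hU2 := hcs.uniformContinuous_of_continuous hcd
  obtain ⟨δ1, hδ1, h1⟩ := Metric.uniformContinuous_iff.1 hU1 η hη
  obtain ⟨δ2, hδ2, h2⟩ := Metric.uniformContinuous_iff.1 hU2 η hη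
  set δ := min δ0 (min δ1 δ2) with hδ
  have hδp : 0 < δ := lt_min hδ0 (lt_min hδ1 hδ2)
  set φ : ContDiffBump (0 : E N) := ⟨δ / 2, δ, by linarith, by linarith⟩ with hφ
  set v : E N → ℝ := φ.normed volume ⋆[ContinuousLinearMap.lsmul ℝ ℝ, volume] u with hv
  have hφi : LocallyIntegrable (φ.normed volume) volume :=
    φ.continuous_normed.locallyIntegrable
  have hvs : ContDiff ℝ (⊤ : ℕ∞) v :=
    φ.hasCompactSupport_normed.contDiff_convolution_left _ φ.contDiff_normed
      hu.smooth.continuous.locallyIntegrable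
  have hsub : tsupport v ⊆ cthickening δ0 (tsupport u) := by
    refine closure_minimal ?_ isClosed_cthickening
    refine (support_convolution_subset _).trans ?_
    intro z hz
    obtain ⟨x, hx, y, hy, rfl⟩ := Set.mem_add.1 hz
    have hx' : x ∈ ball (0 : E N) δ := by
      have := φ.support_normed_eq (μ := volume)
      rw [this] at hx
      exact hx
    refine mem_cthickening_of_dist_le (x + y) y δ0 _ (subset_tsupport _ hy) ?_
    rw [dist_eq_norm, add_sub_cancel_right]
    exact (mem_ball_zero_iff.1 hx').le.trans (min_le_left _ _)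
  refine ⟨v, hvs, ?_, hsub.trans hδs, hsub, fun x => ?_, fun x => ?_⟩
  · exact hu.cpt.isCompact.cthickening.of_isClosed_subset (isClosed_tsupport v) hsub
  · rw [← Real.dist_eq]
    refine φ.dist_normed_convolution_le hu.smooth.continuous.aestronglyMeasurable fun y hy => ?_
    refine (h1 (lt_of_lt_of_le (mem_ball.1 hy) ?_)).le
    exact (min_le_right _ _).trans (min_le_left _ _)
  · have h3 := hu.cpt.hasFDerivAt_convolution_right (L := ContinuousLinearMap.lsmul ℝ ℝ) hφi
      hu.smooth x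
    have h4 : (φ.normed volume ⋆[ContinuousLinearMap.precompR (E N)
        (ContinuousLinearMap.lsmul ℝ ℝ : ℝ →L[ℝ] ℝ →L[ℝ] ℝ), volume] fderiv ℝ u) x =
        (φ.normed volume ⋆[ContinuousLinearMap.lsmul ℝ ℝ, volume] fderiv ℝ u) x := by
      rw [convolution_def, convolution_def]
      refine integral_congr_ae (Eventually.of_forall fun t => ?_)
      exact precompR_lsmul _ _
    rw [h3.fderiv, h4, ← dist_eq_norm]
    refine φ.dist_normed_convolution_le hcd.aestronglyMeasurable fun y hy => ?_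
    refine (h2 (lt_of_lt_of_le (mem_ball.1 hy) ?_)).le
    exact (min_le_right _ _).trans (min_le_right _ _)

theorem norm_gradient {N : ℕ} (u : E N → ℝ) (x : E N) : ‖gradient u x‖ = ‖fderiv ℝ u x‖ := by
  unfold gradient
  exact LinearIsometryEquiv.norm_map _ _

/-- M8a: `C^1` test functions can be approximated by smooth ones. -/
theorem exists_smooth_approx {N : ℕ} {Ω : Set (E N)} (ho : IsOpen Ω) {u : E N → ℝ}
    (hu : Tst Ω u) {ε : ℝ} (hε : 0 < ε) :
    ∃ v : E N → ℝ, ContDiff ℝ (⊤ : ℕ∞) v ∧ HasCompactSupport v ∧ tsupport v ⊆ Ω ∧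
      |(∫ x, v x ^ 2) - ∫ x, u x ^ 2| ≤ ε ∧ |dir v - dir u| ≤ ε := by
  obtain ⟨K, hK, huK, hex⟩ := mollify ho hu
  have hcd : Continuous (fderiv ℝ u) := hu.smooth.continuous_fderiv (by simp)
  obtain ⟨B1, hB1⟩ := hu.cpt.exists_bound_of_continuous hu.smooth.continuous
  obtain ⟨B2, hB2⟩ := (hu.cpt.fderiv (𝕜 := ℝ)).exists_bound_of_continuous hcd
  set B := max B1 B2 with hB
  have hB0 : 0 ≤ B := ((norm_nonneg _).trans (hB1 0)).trans (le_max_left _ _)
  set k := volume.real K with hk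
  have hk0 : 0 ≤ k := measureReal_nonneg
  set η := min 1 (ε / ((2 * B + 1) * (k + 1))) with hη
  have hη0 : 0 < η := lt_min one_pos (by positivity)
  have hη1 : η ≤ 1 := min_le_left _ _
  have hη2 : η * (2 * B + 1) * k ≤ ε := by
    have h1 : η ≤ ε / ((2 * B + 1) * (k + 1)) := min_le_right _ _
    have h2 : η * ((2 * B + 1) * (k + 1)) ≤ ε := by
      rwa [le_div_iff₀ (by positivity)] at h1
    have h3 : 0 ≤ η * (2 * B + 1) := by positivity
    nlinarith
  obtain ⟨v, hvs, hvc, hvΩ, hvK, hv1, hv2⟩ := hex η hη0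
  have hvd : Continuous (fderiv ℝ v) := hvs.continuous_fderiv (by simp)
  -- comparison of integrals of squares of norms
  have key : ∀ {F : Type} [NormedAddCommGroup F] (a b : E N → F), Continuous a → Continuous b →
      HasCompactSupport a → HasCompactSupport b → (∀ x, x ∉ K → a x = 0) →
      (∀ x, x ∉ K → b x = 0) → (∀ x, ‖a x - b x‖ ≤ η) → (∀ x, ‖b x‖ ≤ B) →
      |(∫ x, ‖a x‖ ^ 2) - ∫ x, ‖b x‖ ^ 2| ≤ ε := by
    intro F _ a b ha hb hac hbc ha0 hb0 hab hbB
    have i1 : Integrable (fun x => ‖a x‖ ^ 2) := by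
      refine (ha.norm.pow 2).integrable_of_hasCompactSupport ?_
      exact hac.mono' (fun x hx => subset_tsupport _ fun h => hx (by simp [h]))
    have i2 : Integrable (fun x => ‖b x‖ ^ 2) := by
      refine (hb.norm.pow 2).integrable_of_hasCompactSupport ?_
      exact hbc.mono' (fun x hx => subset_tsupport _ fun h => hx (by simp [h]))
    rw [← integral_sub i1 i2]
    have h1 : ∀ x, ‖‖a x‖ ^ 2 - ‖b x‖ ^ 2‖ ≤ K.indicator (fun _ => η * (2 * B + 1)) x := by
      intro x
      by_cases hx : x ∈ K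
      · rw [indicator_of_mem hx]
        have h2 : |‖a x‖ - ‖b x‖| ≤ η := (abs_norm_sub_norm_le _ _).trans (hab x)
        have h3 : ‖a x‖ + ‖b x‖ ≤ 2 * B + 1 := by
          have := (abs_le.1 h2).2
          linarith [hbB x]
        have h4 : ‖a x‖ ^ 2 - ‖b x‖ ^ 2 = (‖a x‖ - ‖b x‖) * (‖a x‖ + ‖b x‖) := by ring
        rw [h4, norm_mul, Real.norm_eq_abs, Real.norm_eq_abs,
          abs_of_nonneg (add_nonneg (norm_nonneg (a x)) (norm_nonneg (b x)))]
        exact mul_le_mul h2 h3 (by positivity) hη0.le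
      · rw [indicator_of_notMem hx, ha0 x hx, hb0 x hx]; simp
    have h2 : Integrable (K.indicator fun _ : E N => η * (2 * B + 1)) := by
      rw [integrable_indicator_iff hK.measurableSet]
      exact integrableOn_const hK.measure_lt_top.ne
    calc |∫ x, (‖a x‖ ^ 2 - ‖b x‖ ^ 2)| ≤ ∫ x, K.indicator (fun _ => η * (2 * B + 1)) x :=
          norm_integral_le_of_norm_le h2 (Eventually.of_forall h1)
      _ = η * (2 * B + 1) * k := by
          rw [integral_indicator hK.measurableSet, setIntegral_const, smul_eq_mul, ← hk]; ring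
      _ ≤ ε := hη2
  have hz : ∀ {F : Type} [NormedAddCommGroup F] (a : E N → F), tsupport a ⊆ K →
      ∀ x, x ∉ K → a x = 0 := fun a ha x hx =>
    image_eq_zero_of_notMem_tsupport fun h => hx (ha h)
  refine ⟨v, hvs, hvc, hvΩ, ?_, ?_⟩
  · have h1 := key v u hvs.continuous hu.smooth.continuous hvc hu.cpt (hz v hvK) (hz u huK)
      (fun x => hv1 x) (fun x => (hB1 x).trans (le_max_left _ _))
    simpa only [Real.norm_eq_abs, sq_abs] using h1
  · have h1 := key (fderiv ℝ v) (fderiv ℝ u) hvd hcd (hvc.fderiv (𝕜 := ℝ))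
      (hu.cpt.fderiv (𝕜 := ℝ)) (hz _ ((tsupport_fderiv_subset ℝ).trans hvK))
      (hz _ ((tsupport_fderiv_subset ℝ).trans huK)) hv2
      (fun x => (hB2 x).trans (le_max_right _ _))
    unfold dir
    simpa only [norm_gradient] using h1

end Pool.Agent.Helper41.FK
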